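import Pool.Agent.H458.AR.Coh

/-!
# Project AR (helper458): part COH (helper264)
-/

set_option autoImplicit false

open IsDedekindDomain NumberField Polynomial
open scoped Classical

namespace Pool.Agent.H264.AR458

open Pool.Agent.H458.AR
open Pool.Agent.N922.PQ
open Pool.Agent.N874.PP (sW IsBeta sg Rt rr)
open Pool.Agent.N874.PM (PLoc)
open Pool.Agent.N874.QM (IsLoc)
open Pool.Agent.TH115.GD (Pt act rs IsCoc LocTriv Comp Sep)

section aux

variable {L : Type} [Field L] [CharZero L] {A B : ℤ} {ϑ : L}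

theorem irr (hc : IsCub A B ϑ) :
    Irreducible (X ^ 3 + C (A : ℚ) * X + C (B : ℚ) : ℚ[X]) := by
  have := hc.fin
  have h := minpoly.irreducible (Algebra.IsIntegral.isIntegral (R := ℚ) ϑ)
  rw [hc.minpoly_eq] at h
  exact h

theorem dvd_iff (hc : IsCub A B ϑ) (h : ℚ[X]) :
    X ^ 3 + C (A : ℚ) * X + C (B : ℚ) ∣ h ↔ aeval ϑ h = 0 := by
  have h1 : (X ^ 3 + C (A : ℚ) * X + C (B : ℚ) : ℚ[X]) = minpoly ℚ ϑ := by
    rw [hc.minpoly_eq]
    rfl
  rw [h1]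
  constructor
  · rintro ⟨q, rfl⟩
    rw [map_mul, minpoly.aeval, zero_mul]
  · exact minpoly.dvd ℚ ϑ

theorem cop_iff (hc : IsCub A B ϑ) (h : ℚ[X]) :
    IsCoprime h (X ^ 3 + C (A : ℚ) * X + C (B : ℚ)) ↔ aeval ϑ h ≠ 0 := by
  rw [isCoprime_comm, (irr hc).coprime_iff_not_dvd, dvd_iff hc]

/-- `h * h' - g ^ 2` is divisible by the cubic polynomial for some `g` iff the product of the values
is a square. -/
theorem sq_iff (hc : IsCub A B ϑ) (h h' : ℚ[X]) :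
    (∃ g : ℚ[X], X ^ 3 + C (A : ℚ) * X + C (B : ℚ) ∣ h * h' - g ^ 2) ↔
      IsSquare (aeval ϑ h * aeval ϑ h') := by
  constructor
  · rintro ⟨g, hg⟩
    rw [dvd_iff hc, map_sub, map_mul, map_pow, sub_eq_zero] at hg
    exact ⟨aeval ϑ g, by rw [hg, sq]⟩
  · rintro ⟨x, hx⟩
    obtain ⟨g, rfl⟩ := hc.exists_poly x
    refine ⟨g, ?_⟩
    rw [dvd_iff hc, map_sub, map_mul, map_pow, sub_eq_zero, hx, sq]

theorem pl_congr' {F : Type} [Field F] {a b : ℤ} {h h' : F[X]} (hd : ff F a b ∣ h - h')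
    (H : PL F a b h) : PL F a b h' := by
  rcases H with ⟨g, hg⟩ | ⟨x, y, hy, hxy, g, hg⟩
  · left
    refine ⟨g, ?_⟩
    have e : h' - g ^ 2 = (h - g ^ 2) - (h - h') := by ring
    rw [e]
    exact dvd_sub hg hd
  · right
    refine ⟨x, y, hy, hxy, g, ?_⟩
    have e : (C x - X) * h' - g ^ 2 = ((C x - X) * h - g ^ 2) - (C x - X) * (h - h') := by ring
    rw [e]
    exact dvd_sub hg (dvd_mul_of_dvd_right hd _)

theorem lc_of (hc : IsCub A B ϑ) {F : Type} [Field F] [Algebra ℚ F] {h : ℚ[X]}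
    (H : PL F A B (h.map (algebraMap ℚ F))) : LC F A B ϑ (aeval ϑ h) := by
  intro h' hh
  refine pl_congr' ?_ H
  have h3 : ff ℚ A B ∣ h - h' := by
    rw [← hc.minpoly_eq]
    apply minpoly.dvd
    rw [map_sub, hh, sub_self]
  have h4 := Polynomial.map_dvd (algebraMap ℚ F) h3
  rw [ff_map, Polynomial.map_sub] at h4
  exact h4

/-- The two forms of the local condition. -/
theorem ploc_iff {F : Type} [Field F] [Algebra ℚ F] (A B : ℤ) (h : ℚ[X]) :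
    PLoc F (A : ℚ) (B : ℚ) h ↔ PL F A B (h.map (algebraMap ℚ F)) := by
  have e1 : algebraMap ℚ F (A : ℚ) = (A : F) := map_intCast _ _
  have e2 : algebraMap ℚ F (B : ℚ) = (B : F) := map_intCast _ _
  unfold PLoc PL ff
  rw [e1, e2]

end aux

theorem norm_sq {L : Type} [Field L] [NumberField L] {A B : ℤ} {ϑ : L} (hc : IsCub A B ϑ)
    (h : ℚ[X]) (hs : IsSquare (Algebra.norm ℚ (aeval ϑ h))) :
    IsSquare (Algebra.norm ℚ (AdjoinRoot.mk (X ^ 3 + C (A : ℚ) * X + C (B : ℚ) : ℚ[X]) h)) := by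
  set P : ℚ[X] := X ^ 3 + C (A : ℚ) * X + C (B : ℚ) with hP
  have h0 : eval₂ ((Algebra.ofId ℚ L : ℚ →ₐ[ℚ] L) : ℚ →+* L) ϑ P = 0 := (dvd_iff hc _).1 dvd_rfl
  set φ : AdjoinRoot P →ₐ[ℚ] L := AdjoinRoot.liftAlgHom P (Algebra.ofId ℚ L) ϑ h0 with hφ
  have hφm : ∀ q : ℚ[X], φ (AdjoinRoot.mk P q) = aeval ϑ q := fun q => by
    rw [hφ, AdjoinRoot.liftAlgHom_mk]
    rfl
  have hbij : Function.Bijective φ := by
    refine ⟨(injective_iff_map_eq_zero φ).2 fun x hx => ?_, fun x => ?_⟩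
    · obtain ⟨q, rfl⟩ := AdjoinRoot.mk_surjective x
      rw [hφm] at hx
      exact AdjoinRoot.mk_eq_zero.2 ((dvd_iff hc q).2 hx)
    obtain ⟨q, rfl⟩ := hc.exists_poly x
    exact ⟨_, hφm q⟩
  have h1 := Algebra.norm_eq_of_algEquiv (AlgEquiv.ofBijective φ hbij) (AdjoinRoot.mk P h)
  rw [AlgEquiv.coe_ofBijective, hφm] at h1
  rw [← h1]
  exact hs

/-- Part COH. -/
theorem coh (h0 : S_NQ) (h1 : S_CPL) (h2 : S_CA) (h3 : S_CB) (h4 : S_CC) (h5 : S_CD) : S_COH := by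
  intro L _ _ A B ϑ hc hd n g hg hinj hsurj
  have hdQ : 4 * (A : ℚ) ^ 3 + 27 * (B : ℚ) ^ 2 ≠ 0 := by exact_mod_cast hd
  have hirr := irr hc
  -- from classes to cocycles
  have key : ∀ i : Fin n, ∃ (h : ℚ[X]) (f : (Sep ℚ ≃ₐ[ℚ] Sep ℚ) → Pt (sW (A : ℚ) (B : ℚ)) (Sep ℚ)),
      aeval ϑ h = g i ∧ SelCoc (sW (A : ℚ) (B : ℚ)) f ∧ Rl A B f h := by
    intro i
    obtain ⟨h, hh⟩ := hc.exists_poly (g i)
    have hS := hg i
    have hne : aeval ϑ h ≠ 0 := by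
      rw [hh]
      exact hS.ne
    have hcop := (cop_iff hc h).2 hne
    have hnq : IsSquare (Algebra.norm ℚ (aeval ϑ h)) := by
      rw [hh]
      exact h0 L A B ϑ hc (g i) hS
    obtain ⟨f, hf1, hf2, hf3⟩ := h4 A B hdQ hirr h hcop (norm_sq hc h hnq)
    refine ⟨h, f, hh, ⟨hf1, hf2, ⟨fun w => ?_, fun ρ => ?_⟩⟩, hf3⟩
    · exact h5 A B hdQ hirr f hf1 hf2 h hf3 hcop (Comp (𝓞 ℚ) ℚ w)
        ((h1 A B h).2 (fun p _ => hS.fin p h hh) w)
    · letI := ρ.toAlgebra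
      refine h5 A B hdQ hirr f hf1 hf2 h hf3 hcop ℝ ?_
      rw [ploc_iff]
      have h6 := hS.real h hh
      have h7 : (algebraMap ℚ ℝ : ℚ →+* ℝ) = @algebraMap ℚ ℝ _ _ DivisionRing.toRatAlgebra :=
        Subsingleton.elim _ _
      rw [h7]
      exact h6
  choose H f hH hf hR using key
  let Ψ : Fin n → Sel2 (sW (A : ℚ) (B : ℚ)) :=
    fun i => Quotient.mk (selSetoid (sW (A : ℚ) (B : ℚ))) ⟨f i, hf i⟩
  have hΨ : Function.Bijective Ψ := by
    constructor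
    · intro i j hij
      have h6 : Cob (sW (A : ℚ) (B : ℚ)) (f i) (f j) := Quotient.exact hij
      have h7 := (h3 A B hdQ hirr (f i) (f j) (hf i).coc (hf j).coc (hf i).two (hf j).two (H i) (H j)
        (hR i) (hR j)).1 h6
      rw [sq_iff hc, hH, hH] at h7
      exact hinj i j h7
    · intro c
      obtain ⟨⟨f', hf'⟩, rfl⟩ := Quotient.exists_rep c
      obtain ⟨h, hRl, hcop, hfin, hreal⟩ := h2 A B hdQ hirr f' hf'
      have hSl : Sl A B ϑ (aeval ϑ h) := by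
        refine ⟨(cop_iff hc h).1 hcop, fun p _ => ?_, ?_⟩
        · exact lc_of hc ((h1 A B h).1 hfin p)
        · exact lc_of hc ((ploc_iff A B h).1 hreal)
      obtain ⟨i, hi⟩ := hsurj _ hSl
      refine ⟨i, Quotient.sound ?_⟩
      have h7 : ∃ g : ℚ[X], X ^ 3 + C (A : ℚ) * X + C (B : ℚ) ∣ h * H i - g ^ 2 := by
        rw [sq_iff hc, hH]
        exact hi
      exact ((h3 A B hdQ hirr f' (f i) hf'.coc (hf i).coc hf'.two (hf i).two h (H i)
        hRl (hR i)).2 h7).symm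
  rw [← Nat.card_congr (Equiv.ofBijective Ψ hΨ), Nat.card_eq_fintype_card, Fintype.card_fin]

end Pool.Agent.H264.AR458
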